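import Pool.Agent.N609.Flarb.Proof

/-!
# Flarbs need `Ω(log n)` amortized pointer changes

The definitions are in `Pool/Agent/N609/Flarb/Defs.lean`.

Idea. Let the children of a node `v` be the nodes of the rightmost path of its left subtree. A flarb
can (a) make all nodes that were added by the last `m` flarbs children of the new node, and (b) in
each of the following flarbs release one of these children, while at the same time the part of the
tree which consists of the newer nodes is restructured arbitrarily. So `F(2 m + 1) ≥ 2 F(m) + m` for
the largest total cost `F(n)` of `n` flarbs.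
-/

set_option autoImplicit false

namespace Pool.Agent.Results.MP_5c307f_lc.LogLowerBound

open Pool.Agent.N609.Flarb Finset

/-- (1) For every `n` there is a sequence of `n` flarbs, starting from the empty tree, that removes
at least `n (log₂ n - 3) / 4` relationships parent / left child or parent / right child.
(2) So there is no constant `C` such that the number of pointer changes of every sequence of `n`
flarbs is at most `C n`. -/
theorem result :
    (∀ n : ℕ, ∃ T : ℕ → BinaryTree ℕ, FlarbSeq n T ∧
      (n : ℝ) * (Real.logb 2 n - 3) / 4 ≤ ∑ i ∈ range n, (removed (T i) (T (i + 1)) : ℝ)) ∧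
    ∀ C : ℝ, ∃ (n : ℕ) (T : ℕ → BinaryTree ℕ), FlarbSeq n T ∧
      C * n < ∑ i ∈ range n, (removed (T i) (T (i + 1)) : ℝ) := by
  refine ⟨bound_real, fun C => ?_⟩
  obtain ⟨k, hk⟩ := exists_nat_gt (4 * C + 3)
  obtain ⟨T, hT, h⟩ := bound_real (2 ^ k)
  refine ⟨2 ^ k, T, hT, lt_of_lt_of_le ?_ h⟩
  have e : Real.logb 2 ((2 ^ k : ℕ) : ℝ) = k := by
    push_cast
    rw [Real.logb_pow, Real.logb_self_eq_one (by norm_num), mul_one]
  rw [e]
  have hpos : (0 : ℝ) < ((2 ^ k : ℕ) : ℝ) := by positivity
  nlinarith

end Pool.Agent.Results.MP_5c307f_lc.LogLowerBound
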